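import Mathlib
import Pool.Agent.V11194.Cheb2

set_option autoImplicit false

/-!
# A flat Chebyshev metric with continuous angle which is not locally additive
-/

open Real Set Filter Topology

namespace Pool.Agent.Results.MP_65e1c6_gt.NotAdditive

/-- The metric `du² + 2 sin ω du dv + dv²` is locally Euclidean on `D`: every point of `D` has an
open neighbourhood `U ⊆ D` and a `C¹` map `(x, y)` on `U` with `dx² + dy² = ds²`, that is
`|f_u| = |f_v| = 1` and `f_u · f_v = sin ω`. -/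
def LocallyEuclidean (D : Set (ℝ × ℝ)) (ω : ℝ × ℝ → ℝ) : Prop :=
  ∀ p ∈ D, ∃ U : Set (ℝ × ℝ), IsOpen U ∧ p ∈ U ∧ U ⊆ D ∧ ∃ x y : ℝ × ℝ → ℝ,
    ContDiffOn ℝ 1 x U ∧ ContDiffOn ℝ 1 y U ∧ ∀ q ∈ U,
      (fderiv ℝ x q (1, 0)) ^ 2 + (fderiv ℝ y q (1, 0)) ^ 2 = 1 ∧
      (fderiv ℝ x q (0, 1)) ^ 2 + (fderiv ℝ y q (0, 1)) ^ 2 = 1 ∧
      fderiv ℝ x q (1, 0) * fderiv ℝ x q (0, 1) + fderiv ℝ y q (1, 0) * fderiv ℝ y q (0, 1) =
        sin (ω q)

/-- `ω` is locally additive on `D`: every point of `D` has a neighbourhood, an open rectangle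
`(a, b) × (c, d) ⊆ D`, on which `ω(u, v) = g(u) + h(v)` with `g`, `h` continuous. -/
def LocallyAdditive (D : Set (ℝ × ℝ)) (ω : ℝ × ℝ → ℝ) : Prop :=
  ∀ p ∈ D, ∃ a b c d : ℝ, p ∈ Ioo a b ×ˢ Ioo c d ∧ Ioo a b ×ˢ Ioo c d ⊆ D ∧
    ∃ g h : ℝ → ℝ, ContinuousOn g (Ioo a b) ∧ ContinuousOn h (Ioo c d) ∧
      ∀ u ∈ Ioo a b, ∀ v ∈ Ioo c d, ω (u, v) = g u + h v

/-- Local additivity on the plane implies additivity. -/
lemma additive_of_locally {ω : ℝ × ℝ → ℝ} (h : LocallyAdditive univ ω) (u u' v v' : ℝ) :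
    ω (u, v) + ω (u', v') = ω (u, v') + ω (u', v) := by
  have step1 : ∀ u0 v u, ∀ᶠ v' in 𝓝 v, ω (u, v') - ω (u0, v') = ω (u, v) - ω (u0, v) := by
    intro u0 v
    set S := {u | ∀ᶠ v' in 𝓝 v, ω (u, v') - ω (u0, v') = ω (u, v) - ω (u0, v)} with hS
    have hloc : ∀ u1, ∃ a b, u1 ∈ Ioo a b ∧ ∀ x ∈ Ioo a b, ∀ y ∈ Ioo a b, x ∈ S → y ∈ S := by
      intro u1
      obtain ⟨a, b, c, d, ⟨hp1, hp2⟩, _, g, k, _, _, hgk⟩ := h (u1, v) (mem_univ _)
      refine ⟨a, b, hp1, fun x hx y hy hxS => ?_⟩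
      have h1 : ∀ᶠ v' in 𝓝 v, v' ∈ Ioo c d := Ioo_mem_nhds hp2.1 hp2.2
      have h2 : ∀ᶠ v' in 𝓝 v, ω (x, v') - ω (u0, v') = ω (x, v) - ω (u0, v) := hxS
      show ∀ᶠ v' in 𝓝 v, ω (y, v') - ω (u0, v') = ω (y, v) - ω (u0, v)
      filter_upwards [h1, h2] with v' hv' he
      have e1 := hgk x hx v' hv'
      have e2 := hgk y hy v' hv'
      have e3 := hgk x hx v hp2
      have e4 := hgk y hy v hp2
      linarith
    have hclopen : IsClopen S := by
      constructor
      · rw [← isOpen_compl_iff, isOpen_iff_mem_nhds]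
        intro x hx
        obtain ⟨a, b, hab, hl⟩ := hloc x
        filter_upwards [Ioo_mem_nhds hab.1 hab.2] with y hy hyS
        exact hx (hl y hy x hab hyS)
      · rw [isOpen_iff_mem_nhds]
        intro x hx
        obtain ⟨a, b, hab, hl⟩ := hloc x
        filter_upwards [Ioo_mem_nhds hab.1 hab.2] with y hy
        exact hl x hab y hy hx
    have huniv : S = univ := hclopen.eq_univ ⟨u0, by simp [hS]⟩
    intro u
    have : u ∈ S := by rw [huniv]; trivial
    exact this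
  have hlc : IsLocallyConstant (fun v => ω (u', v) - ω (u, v)) :=
    (IsLocallyConstant.iff_eventually_eq _).2 fun v => step1 u v u'
  have h1 : ω (u', v) - ω (u, v) = ω (u', v') - ω (u, v') :=
    hlc.apply_eq_of_preconnectedSpace v v'
  linarith

open Pool.Agent.V11194.Cheb

/-- The phase of the initial map. -/
noncomputable def ph (x : ℝ × ℝ) : ℝ := x.1 + 1 / 1000000 * x.2

/-- The initial strictly short map. -/
noncomputable def f0 (x : ℝ × ℝ) : ℂ :=
  (1599 / 1600 * (x.1 - 1 / 3200 * sin (2 * ph x)) : ℝ) • (1 : ℂ) +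
    (1599 / 1600 * (1 / 20 * sin (ph x)) + 999999 / 1000000 * x.2 : ℝ) • Complex.I

lemma hasFDeriv_ph (x : ℝ × ℝ) : HasFDerivAt ph (ContinuousLinearMap.fst ℝ ℝ ℝ +
    (1 / 1000000 : ℝ) • ContinuousLinearMap.snd ℝ ℝ ℝ) x :=
  hasFDerivAt_fst.add (hasFDerivAt_snd.const_mul (1 / 1000000 : ℝ))

lemma contDiff_ph : ContDiff ℝ (⊤ : ℕ∞) ph := by
  unfold ph
  fun_prop

lemma contDiff_f0 : ContDiff ℝ (⊤ : ℕ∞) f0 := by
  unfold f0
  have := contDiff_ph
  exact ((contDiff_const.mul (contDiff_fst.sub (contDiff_const.mul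
    (contDiff_const.mul this).sin))).smul contDiff_const).add
    (((contDiff_const.mul (contDiff_const.mul this.sin)).add
      (contDiff_const.mul contDiff_snd)).smul contDiff_const)

lemma hasFDeriv_f0 (x : ℝ × ℝ) : HasFDerivAt f0
    (((1599 / 1600 : ℝ) • (ContinuousLinearMap.fst ℝ ℝ ℝ - (1 / 3200 : ℝ) •
      (cos (2 * ph x) • ((2 : ℝ) • (ContinuousLinearMap.fst ℝ ℝ ℝ +
      (1 / 1000000 : ℝ) • ContinuousLinearMap.snd ℝ ℝ ℝ))))).smulRight (1 : ℂ) +
    ((1599 / 1600 : ℝ) • ((1 / 20 : ℝ) • (cos (ph x) • (ContinuousLinearMap.fst ℝ ℝ ℝ +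
      (1 / 1000000 : ℝ) • ContinuousLinearMap.snd ℝ ℝ ℝ))) +
      (999999 / 1000000 : ℝ) • ContinuousLinearMap.snd ℝ ℝ ℝ).smulRight Complex.I) x := by
  have h1 := hasFDeriv_ph x
  have h2 : HasFDerivAt (fun x : ℝ × ℝ => x.1) (ContinuousLinearMap.fst ℝ ℝ ℝ) x := hasFDerivAt_fst
  have h3 : HasFDerivAt (fun x : ℝ × ℝ => x.2) (ContinuousLinearMap.snd ℝ ℝ ℝ) x := hasFDerivAt_snd
  exact ((((h2.sub (((h1.const_mul 2).sin).const_mul (1 / 3200 : ℝ))).const_mul
    (1599 / 1600 : ℝ)).smul_const (1 : ℂ)).add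
    ((((h1.sin.const_mul (1 / 20 : ℝ)).const_mul (1599 / 1600 : ℝ)).add
      (h3.const_mul (999999 / 1000000 : ℝ))).smul_const Complex.I))

lemma du_f0 (x : ℝ × ℝ) : du f0 x =
    ((1599 / 1600 * (1 - 1 / 1600 * cos (2 * ph x)) : ℝ) : ℂ) +
      ((1599 / 1600 * (1 / 20 * cos (ph x)) : ℝ) : ℂ) * Complex.I := by
  unfold du
  rw [(hasFDeriv_f0 x).fderiv]
  simp
  ring

lemma dv_f0 (x : ℝ × ℝ) : dv f0 x =
    ((-(1599 / 1600 * (1 / 1600000000 * cos (2 * ph x))) : ℝ) : ℂ) +
      ((1599 / 1600 * (1 / 20000000 * cos (ph x)) + 999999 / 1000000 : ℝ) : ℂ) * Complex.I := by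
  unfold dv
  rw [(hasFDeriv_f0 x).fderiv]
  simp
  ring

/-- The period. -/
noncomputable def T : ℝ := 2 * π * ((1000000 : ℤ) : ℝ)

lemma T_pos : 0 < T := by
  unfold T
  have := pi_pos
  push_cast
  positivity

lemma per_f0 : Per T (fderiv ℝ f0) := by
  constructor
  · intro x
    rw [← fderiv_comp_add_right (x := x) (a := ((T, 0) : ℝ × ℝ))]
    have e : (fun y => f0 (y + (T, 0))) = fun y => f0 y + ((1599 / 1600 * T : ℝ) • (1 : ℂ)) := by
      funext y
      have e1 : ph (y + (T, 0)) = ph y + ((1000000 : ℤ) : ℝ) * (2 * π) := by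
        simp only [ph, T, Prod.fst_add, Prod.snd_add]
        ring
      have e2 : 2 * ph (y + (T, 0)) = 2 * ph y + ((2000000 : ℤ) : ℝ) * (2 * π) := by
        rw [e1]
        push_cast
        ring
      unfold f0
      rw [e2, e1, sin_add_int_mul_two_pi, sin_add_int_mul_two_pi]
      simp only [Prod.fst_add, Prod.snd_add, Complex.real_smul]
      push_cast
      ring
    rw [e, fderiv_add_const]
  · intro x
    rw [← fderiv_comp_add_right (x := x) (a := ((0, T) : ℝ × ℝ))]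
    have e : (fun y => f0 (y + (0, T))) = fun y => f0 y +
        ((999999 / 1000000 * T : ℝ) • Complex.I) := by
      funext y
      have e1 : ph (y + (0, T)) = ph y + ((1 : ℤ) : ℝ) * (2 * π) := by
        simp only [ph, T, Prod.fst_add, Prod.snd_add]
        push_cast
        ring
      have e2 : 2 * ph (y + (0, T)) = 2 * ph y + ((2 : ℤ) : ℝ) * (2 * π) := by
        rw [e1]
        push_cast
        ring
      unfold f0
      rw [e2, e1, sin_add_int_mul_two_pi, sin_add_int_mul_two_pi]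
      simp only [Prod.fst_add, Prod.snd_add, Complex.real_smul]
      push_cast
      ring
    rw [e, fderiv_add_const]

lemma st_f0 : St T ((1 / 600) ^ 2) f0 where
  smooth := contDiff_f0
  per := per_f0
  hu x := by
    rw [du_f0, ← Complex.normSq_eq_norm_sq, Complex.normSq_add_mul_I, cos_two_mul]
    have h1 : cos (ph x) ^ 2 ≤ 1 := cos_sq_le_one _
    have h2 : 0 ≤ cos (ph x) ^ 2 := by positivity
    have e : (1599 / 1600 * (1 - 1 / 1600 * (2 * cos (ph x) ^ 2 - 1))) ^ 2 +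
      (1599 / 1600 * (1 / 20 * cos (ph x))) ^ 2 = (1599 / 1600) ^ 2 *
      ((1 - 1 / 1600 * (2 * cos (ph x) ^ 2 - 1)) ^ 2 + 1 / 400 * cos (ph x) ^ 2) := by ring
    rw [e]
    set q := cos (ph x) ^ 2
    constructor <;> nlinarith
  hv x := by
    rw [dv_f0, ← Complex.normSq_eq_norm_sq, Complex.normSq_add_mul_I]
    have h1 := cos_le_one (ph x)
    have h2 := neg_one_le_cos (ph x)
    have h3 : cos (2 * ph x) ^ 2 ≤ 1 := cos_sq_le_one _
    have h4 : 0 ≤ cos (2 * ph x) ^ 2 := by positivity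
    have h5 : cos (ph x) ^ 2 ≤ 1 := cos_sq_le_one _
    constructor
    · nlinarith
    · nlinarith

/-- The Euclidean inner product of two complex numbers. -/
noncomputable def ip (z w : ℂ) : ℝ := z.re * w.re + z.im * w.im

lemma abs_ip_le (z w : ℂ) : |ip z w| ≤ ‖z‖ * ‖w‖ := by
  have h1 := Complex.abs_re_le_norm (starRingEnd ℂ z * w)
  rw [norm_mul, Complex.norm_conj] at h1
  have : (starRingEnd ℂ z * w).re = ip z w := by
    simp [ip]
  rwa [this] at h1

lemma ip_mk (a b c d : ℝ) : ip ((a : ℂ) + (b : ℂ) * Complex.I) ((c : ℂ) + (d : ℂ) * Complex.I) =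
    a * c + b * d := by
  simp [ip]

/-- Q1 is false: there are an open set `D` of the plane and a continuous `ω` on `D` with
`|sin ω| < 1` such that the metric `du² + 2 sin ω du dv + dv²` is locally Euclidean, but `ω` is
not locally additive. -/
theorem result : ∃ (D : Set (ℝ × ℝ)) (ω : ℝ × ℝ → ℝ), IsOpen D ∧ ContinuousOn ω D ∧
    (∀ p ∈ D, |sin (ω p)| < 1) ∧ LocallyEuclidean D ω ∧ ¬ LocallyAdditive D ω := by
  obtain ⟨f, hf, hfu, hfv, hcu, hcv⟩ := main (r := 1 / 600) (T := T) (m := 1000000) rfl T_pos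
    (by norm_num) (by norm_num) st_f0
  have hdf : Differentiable ℝ f := hf.differentiable (by simp)
  have hcf := hf.continuous_fderiv (by simp)
  have cu : Continuous (du f) := hcf.clm_apply continuous_const
  have cv : Continuous (dv f) := hcf.clm_apply continuous_const
  have hclose : ∀ x, |ip (du f x) (dv f x) - ip (du f0 x) (dv f0 x)| ≤ 3 / 100 := by
    intro x
    have e : ip (du f x) (dv f x) - ip (du f0 x) (dv f0 x) =
        ip (du f x - du f0 x) (dv f x) + ip (du f0 x) (dv f x - dv f0 x) := by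
      simp only [ip, Complex.sub_re, Complex.sub_im]
      ring
    have h1 := abs_ip_le (du f x - du f0 x) (dv f x)
    have h2 := abs_ip_le (du f0 x) (dv f x - dv f0 x)
    have h3 : ‖du f0 x‖ ≤ 1 := by
      have := (st_f0.hu x).1
      nlinarith [norm_nonneg (du f0 x)]
    rw [hfv, mul_one] at h1
    have h4 : ‖du f0 x‖ * ‖dv f x - dv f0 x‖ ≤ 1 * (9 * (1 / 600)) :=
      mul_le_mul h3 (hcv x) (norm_nonneg _) (by norm_num)
    rw [e]
    refine (abs_add_le _ _).trans ?_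
    linarith [hcu x]
  have hip0 : ∀ x, ip (du f0 x) (dv f0 x) =
      (1599 / 1600 * (1 - 1 / 1600 * cos (2 * ph x))) *
        (-(1599 / 1600 * (1 / 1600000000 * cos (2 * ph x)))) +
      (1599 / 1600 * (1 / 20 * cos (ph x))) *
        (1599 / 1600 * (1 / 20000000 * cos (ph x)) + 999999 / 1000000) := by
    intro x
    rw [du_f0, dv_f0, ip_mk]
  have hlt : ∀ x, |ip (du f x) (dv f x)| < 1 := by
    intro x
    have h1 := hclose x
    rw [hip0] at h1
    have h2 := cos_le_one (ph x)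
    have h3 := neg_one_le_cos (ph x)
    have h4 := cos_le_one (2 * ph x)
    have h5 := neg_one_le_cos (2 * ph x)
    have h6 : cos (ph x) ^ 2 ≤ 1 := cos_sq_le_one _
    have h7 : cos (2 * ph x) ^ 2 ≤ 1 := cos_sq_le_one _
    have h8 : 0 ≤ cos (ph x) ^ 2 := by positivity
    have h9 : 0 ≤ cos (2 * ph x) ^ 2 := by positivity
    rw [abs_le] at h1
    rw [abs_lt]
    constructor <;> nlinarith
  set ω : ℝ × ℝ → ℝ := fun x => arcsin (ip (du f x) (dv f x)) with hω
  have hsin : ∀ x, sin (ω x) = ip (du f x) (dv f x) := fun x =>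
    sin_arcsin (abs_lt.1 (hlt x)).1.le (abs_lt.1 (hlt x)).2.le
  refine ⟨univ, ω, isOpen_univ, ?_, ?_, ?_, ?_⟩
  · apply Continuous.continuousOn
    apply continuous_arcsin.comp
    unfold ip
    exact ((Complex.continuous_re.comp cu).mul (Complex.continuous_re.comp cv)).add
      ((Complex.continuous_im.comp cu).mul (Complex.continuous_im.comp cv))
  · intro p _
    rw [hsin]
    exact hlt p
  · intro p _
    refine ⟨univ, isOpen_univ, mem_univ _, subset_rfl, fun q => (f q).re, fun q => (f q).im,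
      (Complex.reCLM.contDiff.comp hf).contDiffOn, (Complex.imCLM.contDiff.comp hf).contDiffOn, ?_⟩
    intro q _
    have hre : fderiv ℝ (fun q => (f q).re) q = Complex.reCLM.comp (fderiv ℝ f q) :=
      (Complex.reCLM.hasFDerivAt.comp q (hdf q).hasFDerivAt).fderiv
    have him : fderiv ℝ (fun q => (f q).im) q = Complex.imCLM.comp (fderiv ℝ f q) :=
      (Complex.imCLM.hasFDerivAt.comp q (hdf q).hasFDerivAt).fderiv
    have hn : ∀ z : ℂ, ‖z‖ = 1 → z.re ^ 2 + z.im ^ 2 = 1 := by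
      intro z hz
      have := Complex.sq_norm z
      rw [hz, Complex.normSq_apply] at this
      linarith
    rw [hre, him, hsin]
    exact ⟨hn _ (hfu q), hn _ (hfv q), rfl⟩
  · intro hadd
    have hpi := pi_pos
    have hmain := additive_of_locally hadd 0 π 0 (1000000 * π)
    have pos : ∀ x, cos (ph x) = 1 → 0 < ω x := by
      intro x hx
      have h1 := hclose x
      rw [hip0, cos_two_mul, hx, abs_le] at h1
      apply arcsin_pos.2
      linarith [h1.1]
    have neg : ∀ x, cos (ph x) = -1 → ω x < 0 := by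
      intro x hx
      have h1 := hclose x
      rw [hip0, cos_two_mul, hx, abs_le] at h1
      apply arcsin_lt_zero.2
      linarith [h1.2]
    have p1 := pos (0, 0) (by simp [ph])
    have p2 := pos (π, 1000000 * π) (by
      rw [ph, show π + 1 / 1000000 * (1000000 * π) = 2 * π by ring, cos_two_pi])
    have p3 := neg (0, 1000000 * π) (by
      rw [ph, show 0 + 1 / 1000000 * (1000000 * π) = π by ring, cos_pi])
    have p4 := neg (π, 0) (by
      rw [ph, show π + 1 / 1000000 * 0 = π by ring, cos_pi])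
    linarith

end Pool.Agent.Results.MP_65e1c6_gt.NotAdditive
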